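import Pool.Agent.W973.IP.FDefs

/-!
Subtask IPF-MEM (owner helper973, MP_47d501_lc): ISOLATED-POINT-EXISTENCE belongs to `∃∀ℝ`.
-/

set_option autoImplicit false

namespace Pool.Agent.W654.IP

open Pool.Agent.W973.IP Pool.Agent.NPC Pool.Agent.NPC.ER Pool.Agent.NPC.H612

/-! ### Renaming -/

theorem eval_tren (σ : ℕ → ℕ) (v : ℕ → ℝ) (t : Tm) :
    (tren σ t).eval v = t.eval (fun i => v (σ i)) := by
  induction t with
  | var i => rfl
  | zero => rfl
  | one => rfl
  | add s t ih1 ih2 => simp only [tren, Tm.eval, ih1, ih2]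
  | neg s ih => simp only [tren, Tm.eval, ih]
  | mul s t ih1 ih2 => simp only [tren, Tm.eval, ih1, ih2]

theorem holds_fren (σ : ℕ → ℕ) (v : ℕ → ℝ) (φ : Fm) :
    (fren σ φ).Holds v ↔ φ.Holds (fun i => v (σ i)) := by
  induction φ with
  | eq s t => simp only [fren, Fm.Holds, eval_tren]
  | lt s t => simp only [fren, Fm.Holds, eval_tren]
  | le s t => simp only [fren, Fm.Holds, eval_tren]
  | not φ ih => simp only [fren, Fm.Holds, ih]
  | and φ ψ ih1 ih2 => simp only [fren, Fm.Holds, ih1, ih2]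
  | or φ ψ ih1 ih2 => simp only [fren, Fm.Holds, ih1, ih2]

/-- Renaming of a symbol. -/
def rtok (σ : ℕ → ℕ) (t : Tok) : Tok := if t.code.1 = 0 then Tok.var (σ t.code.2) else t

theorem toks_tren (σ : ℕ → ℕ) (t : Tm) : (tren σ t).toks = t.toks.map (rtok σ) := by
  induction t with
  | var i => simp [tren, Tm.toks, rtok, Tok.code]
  | zero => simp [tren, Tm.toks, rtok, Tok.code]
  | one => simp [tren, Tm.toks, rtok, Tok.code]
  | add s t ih1 ih2 => simp [tren, Tm.toks, ih1, ih2, rtok, Tok.code]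
  | neg s ih => simp [tren, Tm.toks, ih, rtok, Tok.code]
  | mul s t ih1 ih2 => simp [tren, Tm.toks, ih1, ih2, rtok, Tok.code]

theorem toks_fren (σ : ℕ → ℕ) (φ : Fm) : (fren σ φ).toks = φ.toks.map (rtok σ) := by
  induction φ with
  | eq s t => simp [fren, Fm.toks, toks_tren, rtok, Tok.code]
  | lt s t => simp [fren, Fm.toks, toks_tren, rtok, Tok.code]
  | le s t => simp [fren, Fm.toks, toks_tren, rtok, Tok.code]
  | not φ ih => simp [fren, Fm.toks, ih, rtok, Tok.code]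
  | and φ ψ ih1 ih2 => simp [fren, Fm.toks, ih1, ih2, rtok, Tok.code]
  | or φ ψ ih1 ih2 => simp [fren, Fm.toks, ih1, ih2, rtok, Tok.code]

theorem poly_fren {α : Type} [TEnc α] {σ : α → ℕ → ℕ} {φ : α → Fm}
    (hσ : NPC.Poly (fun q : α × ℕ => σ q.1 q.2)) (hφ : NPC.Poly φ) :
    NPC.Poly (fun a => fren (σ a) (φ a)) := by
  refine fm_of_toks (NPC.Poly.congr (f := fun a => (φ a).toks.map (rtok (σ a))) ?_
    fun a => (toks_fren _ _).symm)
  refine NPC.Poly.map (F := fun a (t : Tok) => rtok (σ a) t) (fm_toks hφ) ?_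
  unfold rtok
  have hc : NPC.Poly (fun q : α × Tok => q.2.code) := poly_tok_code (NPC.Poly.snd NPC.Poly.id)
  refine NPC.Poly.ite (NPC.Poly.decide_eq (NPC.Poly.fst hc) (NPC.Poly.const 0)) (poly_tok_var' ?_)
    (NPC.Poly.snd NPC.Poly.id)
  exact hσ.comp (NPC.Poly.pair (NPC.Poly.fst NPC.Poly.id) (NPC.Poly.snd hc))

/-! ### The sentence -/

/-- Names of the coordinates of the isolated point. -/
def nx (n i : ℕ) : ℕ := if i < n then 3 * i else 5

/-- Names of the coordinates of the other point. -/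
def ny (n i : ℕ) : ℕ := if i < n then 3 * i + 1 else 5

/-- The difference of two coordinates. -/
def dT (i : ℕ) : Tm := Tm.add (Tm.var (3 * i + 1)) (Tm.neg (Tm.var (3 * i)))

/-- The formula. -/
def memF (n : ℕ) (φ : Fm) : Fm :=
  Fm.or (Fm.not (Fm.eq (Tm.var 5) Tm.zero)) (conj [fren (nx n) φ, Fm.lt Tm.zero (Tm.var 2),
    Fm.or (Fm.not (Fm.and (fren (ny n) φ) (conj ((List.range n).map fun i =>
      Fm.and (Fm.lt (Tm.neg (Tm.var 2)) (dT i)) (Fm.lt (dT i) (Tm.var 2))))))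
      (conj ((List.range n).map fun i => Fm.eq (Tm.var (3 * i + 1)) (Tm.var (3 * i))))])

/-- The sentence. -/
def memS (a : List Unit × Fm) : List ℕ × Fm :=
  (2 :: (List.range a.1.length).map (fun n => 3 * n), memF a.1.length a.2)

theorem holds_memF (n : ℕ) (φ : Fm) (v : ℕ → ℝ) : (memF n φ).Holds v ↔
    (v 5 = 0 → φ.Holds (fun i => v (nx n i)) ∧ 0 < v 2 ∧
      (φ.Holds (fun i => v (ny n i)) ∧ (∀ i < n, |v (3 * i + 1) - v (3 * i)| < v 2) →
        ∀ i < n, v (3 * i + 1) = v (3 * i))) := by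
  have h1 : (conj ((List.range n).map fun i =>
      Fm.and (Fm.lt (Tm.neg (Tm.var 2)) (dT i)) (Fm.lt (dT i) (Tm.var 2)))).Holds v ↔
      ∀ i < n, |v (3 * i + 1) - v (3 * i)| < v 2 := by
    rw [holds_conj]
    simp only [List.mem_map, List.mem_range, forall_exists_index, and_imp,
      forall_apply_eq_imp_iff₂, Fm.Holds, dT, Tm.eval, abs_lt, ← sub_eq_add_neg]
  have h2 : (conj ((List.range n).map fun i =>
      Fm.eq (Tm.var (3 * i + 1)) (Tm.var (3 * i)))).Holds v ↔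
      ∀ i < n, v (3 * i + 1) = v (3 * i) := by
    rw [holds_conj]
    simp only [List.mem_map, List.mem_range, forall_exists_index, and_imp,
      forall_apply_eq_imp_iff₂, Fm.Holds, Tm.eval]
  unfold memF
  rw [Fm.Holds, Fm.Holds, ← imp_iff_not_or]
  refine imp_congr (by simp only [Fm.Holds, Tm.eval]) ?_
  rw [holds_conj]
  simp only [List.mem_cons, List.not_mem_nil, or_false, forall_eq_or_imp, forall_eq]
  refine and_congr (holds_fren _ _ _) (and_congr (by simp only [Fm.Holds, Tm.eval]) ?_)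
  rw [Fm.Holds, Fm.Holds, ← imp_iff_not_or]
  refine imp_congr ?_ h2
  rw [Fm.Holds]
  exact and_congr (holds_fren _ _ _) h1

theorem nx_eq (n : ℕ) (v : ℕ → ℝ) (h : v 5 = 0) :
    (fun i => v (nx n i)) = xt (fun c : Fin n => v (3 * (c : ℕ))) := by
  funext i
  unfold nx xt
  split_ifs with hi
  · rfl
  · exact h

theorem ny_eq (n : ℕ) (v : ℕ → ℝ) (h : v 5 = 0) :
    (fun i => v (ny n i)) = xt (fun c : Fin n => v (3 * (c : ℕ) + 1)) := by
  funext i
  unfold ny xt
  split_ifs with hi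
  · rfl
  · exact h

theorem isoPt_iff (a : List Unit × Fm) : IsoPt a ↔ EAR (memS a) := by
  obtain ⟨du, φ⟩ := a
  unfold IsoPt memS EAR
  simp only
  generalize du.length = n
  obtain ⟨E, hE⟩ : ∃ E, E = 2 :: (List.range n).map (fun n => 3 * n) := ⟨_, rfl⟩
  rw [← hE]
  have v3 : ∀ (x y : ℕ → ℝ) i (_ : i < n), mixv E x y (3 * i) = x (3 * i) := by
    intro x y i hi
    unfold mixv
    rw [if_pos]
    rw [hE]
    exact List.mem_cons_of_mem _ (List.mem_map.2 ⟨i, List.mem_range.2 hi, rfl⟩)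
  have v2 : ∀ (x y : ℕ → ℝ), mixv E x y 2 = x 2 := by
    intro x y
    unfold mixv
    rw [if_pos]
    rw [hE]
    exact List.mem_cons_self
  have v1 : ∀ (x y : ℕ → ℝ) i, mixv E x y (3 * i + 1) = y (3 * i + 1) := by
    intro x y i
    unfold mixv
    rw [if_neg]
    rw [hE]
    simp only [List.mem_cons, List.mem_map, List.mem_range, not_or, not_exists, not_and]
    exact ⟨by omega, fun j _ => by omega⟩
  have v5 : ∀ (x y : ℕ → ℝ), mixv E x y 5 = y 5 := by
    intro x y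
    unfold mixv
    rw [if_neg]
    rw [hE]
    simp only [List.mem_cons, List.mem_map, List.mem_range, not_or, not_exists, not_and]
    exact ⟨by omega, fun j _ => by omega⟩
  have e3 : ∀ (x y : ℕ → ℝ), (fun c : Fin n => mixv E x y (3 * (c : ℕ))) =
      fun c : Fin n => x (3 * (c : ℕ)) := fun x y => funext fun c => v3 x y c c.2
  have e1 : ∀ (x y : ℕ → ℝ), (fun c : Fin n => mixv E x y (3 * (c : ℕ) + 1)) =
      fun c : Fin n => y (3 * (c : ℕ) + 1) := fun x y => funext fun c => v1 x y c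
  constructor
  · rintro ⟨x0, hx0, ε, hε, H⟩
    refine ⟨fun m => if m = 2 then ε else xt x0 (m / 3), fun y => ?_⟩
    rw [holds_memF]
    intro h5
    rw [nx_eq _ _ h5, ny_eq _ _ h5, e3, e1, v2]
    have ex : (fun c : Fin n => (fun m => if m = 2 then ε else xt x0 (m / 3)) (3 * (c : ℕ))) =
        x0 := by
      funext c
      simp only
      rw [if_neg (by omega), show 3 * (c : ℕ) / 3 = c by omega]
      exact xt_fin _ c
    rw [ex]
    refine ⟨hx0, by simpa using hε, ?_⟩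
    rintro ⟨hy, hd⟩ i hi
    have h3 := H (fun c : Fin n => y (3 * (c : ℕ) + 1)) hy (by
      rw [dist_pi_lt_iff hε]
      intro c
      have h4 := hd c c.2
      rw [v1, v3 _ _ _ c.2] at h4
      rw [Real.dist_eq]
      have h6 := congrFun ex c
      simp only at h6
      rw [← h6]
      simpa using h4)
    have h7 := congrFun h3 ⟨i, hi⟩
    rw [v1, v3 _ _ _ hi]
    have h6 := congrFun ex ⟨i, hi⟩
    simp only at h6 h7
    rw [h7, ← h6]
  · rintro ⟨X, h⟩
    have h0 := (holds_memF n φ _).1 (h fun _ => 0) (v5 _ _)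
    obtain ⟨h1, h2, -⟩ := h0
    rw [nx_eq _ _ (v5 _ _), e3] at h1
    rw [v2] at h2
    refine ⟨fun c : Fin n => X (3 * (c : ℕ)), h1, X 2, h2, fun y hy hd => ?_⟩
    obtain ⟨Y, hY⟩ : ∃ Y : ℕ → ℝ, Y = fun m => if m % 3 = 1 then xt y (m / 3) else 0 := ⟨_, rfl⟩
    have hY5 : Y 5 = 0 := by rw [hY]; simp
    have hY1 : ∀ c : Fin n, Y (3 * (c : ℕ) + 1) = y c := by
      intro c
      rw [hY]
      simp only
      rw [if_pos (by omega), show (3 * (c : ℕ) + 1) / 3 = c by omega]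
      exact xt_fin _ c
    have h3 := ((holds_memF n φ _).1 (h Y) ((v5 _ _).trans hY5)).2.2
    rw [ny_eq _ _ ((v5 _ _).trans hY5), e1, v2] at h3
    have h4 : (fun c : Fin n => Y (3 * (c : ℕ) + 1)) = y := funext hY1
    rw [h4] at h3
    have h5 := h3 ⟨hy, fun i hi => by
      rw [v1, v3 _ _ _ hi]
      have h6 := (dist_pi_lt_iff h2).1 hd ⟨i, hi⟩
      rw [Real.dist_eq] at h6
      have h7 := hY1 ⟨i, hi⟩
      simp only at h6 h7
      rw [h7]
      exact h6⟩
    funext c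
    have h6 := h5 c c.2
    rw [v1, v3 _ _ _ c.2, hY1] at h6
    exact h6

/-! ### Polynomial time -/

section

variable {α : Type} [TEnc α]

theorem poly_nx {n i : α → ℕ} (hn : NPC.Poly n) (hi : NPC.Poly i) :
    NPC.Poly (fun a => nx (n a) (i a)) := by
  unfold nx
  exact NPC.Poly.ite (NPC.Poly.decide_lt hi hn) (NPC.Poly.mul (NPC.Poly.const 3) hi)
    (NPC.Poly.const 5)

theorem poly_ny {n i : α → ℕ} (hn : NPC.Poly n) (hi : NPC.Poly i) :
    NPC.Poly (fun a => ny (n a) (i a)) := by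
  unfold ny
  exact NPC.Poly.ite (NPC.Poly.decide_lt hi hn)
    (NPC.Poly.succ (NPC.Poly.mul (NPC.Poly.const 3) hi)) (NPC.Poly.const 5)

theorem poly_v3 {i : α → ℕ} (hi : NPC.Poly i) : NPC.Poly (fun a => Tm.var (3 * i a)) :=
  poly_tvar (NPC.Poly.mul (NPC.Poly.const 3) hi)

theorem poly_v31 {i : α → ℕ} (hi : NPC.Poly i) : NPC.Poly (fun a => Tm.var (3 * i a + 1)) :=
  poly_tvar (NPC.Poly.succ (NPC.Poly.mul (NPC.Poly.const 3) hi))

theorem poly_dT {i : α → ℕ} (hi : NPC.Poly i) : NPC.Poly (fun a => dT (i a)) :=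
  poly_tadd (poly_v31 hi) (poly_tneg (poly_v3 hi))

theorem poly_c1 {n : α → ℕ} (hn : UPoly n) : NPC.Poly (fun a => conj ((List.range (n a)).map
    fun i => Fm.and (Fm.lt (Tm.neg (Tm.var 2)) (dT i)) (Fm.lt (dT i) (Tm.var 2)))) := by
  refine poly_conj (NPC.Poly.map (F := fun _ i => Fm.and (Fm.lt (Tm.neg (Tm.var 2)) (dT i))
      (Fm.lt (dT i) (Tm.var 2))) hn.range ?_)
  have hd : NPC.Poly (fun q : α × ℕ => dT q.2) := poly_dT (NPC.Poly.snd NPC.Poly.id)
  exact poly_fand (poly_flt (NPC.Poly.const _) hd) (poly_flt hd (NPC.Poly.const _))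

theorem poly_c2 {n : α → ℕ} (hn : UPoly n) : NPC.Poly (fun a => conj ((List.range (n a)).map
    fun i => Fm.eq (Tm.var (3 * i + 1)) (Tm.var (3 * i)))) := by
  refine poly_conj (NPC.Poly.map (F := fun _ i => Fm.eq (Tm.var (3 * i + 1)) (Tm.var (3 * i)))
    hn.range ?_)
  have hi : NPC.Poly (fun q : α × ℕ => q.2) := NPC.Poly.snd NPC.Poly.id
  exact poly_feq (poly_v31 hi) (poly_v3 hi)

theorem poly_memF {n : α → ℕ} {φ : α → Fm} (hn : UPoly n) (hφ : NPC.Poly φ) :
    NPC.Poly (fun a => memF (n a) (φ a)) := by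
  have hn' := hn.toPoly
  have hi : NPC.Poly (fun q : α × ℕ => q.2) := NPC.Poly.snd NPC.Poly.id
  have hn2 : NPC.Poly (fun q : α × ℕ => n q.1) := hn'.comp (NPC.Poly.fst NPC.Poly.id)
  have hx : NPC.Poly (fun a => fren (nx (n a)) (φ a)) :=
    poly_fren (σ := fun a => nx (n a)) (poly_nx hn2 hi) hφ
  have hy : NPC.Poly (fun a => fren (ny (n a)) (φ a)) :=
    poly_fren (σ := fun a => ny (n a)) (poly_ny hn2 hi) hφ
  unfold memF
  exact poly_for (NPC.Poly.const _) (poly_conj (NPC.Poly.cons hx (NPC.Poly.cons (NPC.Poly.const _)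
    (NPC.Poly.cons (poly_for (poly_fnot (poly_fand hy (poly_c1 hn))) (poly_c2 hn))
      (NPC.Poly.const [])))))

end

theorem poly_memS : NPC.Poly memS := by
  have hn : UPoly (fun a : List Unit × Fm => a.1.length) :=
    UPoly.length (NPC.Poly.fst NPC.Poly.id)
  unfold memS
  refine NPC.Poly.pair (NPC.Poly.cons (NPC.Poly.const 2) (NPC.Poly.map (F := fun _ n => 3 * n)
    hn.range (NPC.Poly.mul (NPC.Poly.const 3) (NPC.Poly.snd NPC.Poly.id)))) ?_
  exact poly_memF hn (NPC.Poly.snd NPC.Poly.id)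

/-- Subtask IPF-MEM. -/
theorem mem : S_MEM := InEAR.of_poly (f := memS) poly_memS isoPt_iff

end Pool.Agent.W654.IP
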